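import Pool.Agent.K6.H86.EV.Core
import Pool.Agent.K6.H86.EV.Geo

/-! MP_49cb33_nt: a criterion for `k` not to be a height/base ratio of an integer-edged triangle, and the
values `k ≤ 100` it excludes. -/

set_option autoImplicit false

namespace Pool.Agent.Results.MP_49cb33_nt.NonRatios

open Pool.Agent.K6.H86.EV

theorem result :
    (∀ k : ℕ, 0 < k → CondA k → CondB k → ¬ IsRatio k) ∧
    (∀ k ∈ ({1, 2, 4, 6, 9, 14, 16, 22, 26, 34, 36, 38, 46, 50, 54, 66, 82, 94, 98, 100} : Finset ℕ),
      ¬ IsRatio k) := by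
  have h : ∀ k : ℕ, 0 < k → CondA k → CondB k → ¬ IsRatio k := by
    intro k hk hA hB hR
    obtain ⟨u, v, r, hu, hv, h⟩ := integers_of_ratio hk hR
    exact no_sol hk hA hB _ u v rfl hu hv r h
  refine ⟨h, ?_⟩
  intro k hk
  simp only [Finset.mem_insert, Finset.mem_singleton] at hk
  rcases hk with rfl | rfl | rfl | rfl | rfl | rfl | rfl | rfl | rfl | rfl | rfl | rfl | rfl | rfl | rfl |
    rfl | rfl | rfl | rfl | rfl
  all_goals exact h _ (by norm_num) (by unfold CondA; decide +kernel) (by unfold CondB; decide +kernel)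

end Pool.Agent.Results.MP_49cb33_nt.NonRatios
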