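import Pool.Agent.K6.H86.EV.Geo

/-! MP_49cb33_nt: every `s² - 1`, `s ≥ 2`, is a height/base ratio of an integer-edged triangle. -/

set_option autoImplicit false

namespace Pool.Agent.Results.MP_49cb33_nt.RatioFamily

open Pool.Agent.K6.H86.EV

theorem result : ∀ s : ℕ, 2 ≤ s → IsRatio (s ^ 2 - 1) := by
  intro s hs
  obtain ⟨t, rfl⟩ : ∃ t, s = t + 1 := ⟨s - 1, by omega⟩
  have h : (t + 1) ^ 2 - 1 = t * (t + 2) := by
    have : (t + 1) ^ 2 = t * (t + 2) + 1 := by ring
    rw [this, Nat.add_sub_cancel]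
  rw [h]
  exact ratio_of_family t (by omega)

end Pool.Agent.Results.MP_49cb33_nt.RatioFamily
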